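import Pool.Agent.X86.OM.Defs

/-! counting for porous graphs -/

set_option autoImplicit false

open Set Filter Topology
open scoped ENNReal

namespace Pool.Agent.X86.OM

lemma cell {a L x : ℝ} {M : ℕ} (hM : 1 ≤ M) (hL : 0 < L) (hx : x ∈ Icc a (a + L)) :
    ∃ i < M, x ∈ Icc (a + i * (L / M)) (a + i * (L / M) + L / M) := by
  have hM0 : (0:ℝ) < M := by exact_mod_cast hM
  have hw : 0 < L / M := by positivity
  set u := (x - a) / (L / M) with hu
  have hu0 : 0 ≤ u := div_nonneg (by linarith [hx.1]) hw.le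
  have hxu : x = a + u * (L / M) := by rw [hu]; field_simp; ring
  have huM : u ≤ M := by
    rw [hu, div_le_iff₀ hw]
    have : (M:ℝ) * (L / M) = L := by field_simp
    rw [this]; linarith [hx.2]
  rcases lt_or_eq_of_le huM with h | h
  · refine ⟨⌊u⌋₊, (Nat.floor_lt hu0).mpr h, ?_, ?_⟩
    · rw [hxu]; gcongr; exact Nat.floor_le hu0
    · have h1 := (Nat.lt_floor_add_one u).le
      have h2 : u * (L / M) ≤ (⌊u⌋₊ + 1) * (L / M) := by gcongr
      rw [hxu]; linarith
  · refine ⟨M - 1, by omega, ?_, ?_⟩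
    · have : ((M - 1 : ℕ) : ℝ) = M - 1 := by push_cast [hM]; ring
      rw [this, hxu, h]
      nlinarith
    · have : ((M - 1 : ℕ) : ℝ) = M - 1 := by push_cast [hM]; ring
      rw [this, hxu, h]
      nlinarith

/-- number of points of `S` in a square -/
noncomputable def sq (S : Finset E2) (a b L : ℝ) : Finset E2 :=
  S.filter fun p => p 0 ∈ Icc a (a + L) ∧ p 1 ∈ Icc b (b + L)

lemma mem_sq {S : Finset E2} {a b L : ℝ} {p : E2} :
    p ∈ sq S a b L ↔ p ∈ S ∧ p 0 ∈ Icc a (a + L) ∧ p 1 ∈ Icc b (b + L) := by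
  simp [sq]

lemma sq_one {S : Finset E2} {r : ℝ} (hr : 0 < r) (hsep : ∀ p ∈ S, ∀ q ∈ S, p ≠ q → 2 * r < dist p q)
    {a b L : ℝ} (hL : L ≤ r) : (sq S a b L).card ≤ 1 := by
  rw [Finset.card_le_one]
  intro p hp q hq
  by_contra hne
  rw [mem_sq] at hp hq
  have h1 := hsep p hp.1 q hq.1 hne
  rw [EuclideanSpace.dist_eq, Fin.sum_univ_two, Real.dist_eq, Real.dist_eq] at h1
  have h2 : |p 0 - q 0| ≤ r := by
    rw [abs_le]; constructor <;> linarith [hp.2.1.1, hp.2.1.2, hq.2.1.1, hq.2.1.2]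
  have h3 : |p 1 - q 1| ≤ r := by
    rw [abs_le]; constructor <;> linarith [hp.2.2.1, hp.2.2.2, hq.2.2.1, hq.2.2.2]
  have h4 : √(|p 0 - q 0| ^ 2 + |p 1 - q 1| ^ 2) ≤ 2 * r := by
    rw [Real.sqrt_le_left (by positivity)]
    nlinarith [abs_nonneg (p 0 - q 0), abs_nonneg (p 1 - q 1)]
  linarith

/-- splitting a square into `M × M` subsquares, the `x`-columns indexed by `I` -/
lemma sq_split {S : Finset E2} {a b L : ℝ} {M K : ℕ} (hM : 1 ≤ M) (hL : 0 < L) (I : Finset ℕ)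
    (hI : ∀ p ∈ sq S a b L, ∀ i < M, p 0 ∈ Icc (a + i * (L / M)) (a + i * (L / M) + L / M) → i ∈ I)
    (hK : ∀ i ∈ I, ∀ j < M, (sq S (a + i * (L / M)) (b + j * (L / M)) (L / M)).card ≤ K) :
    (sq S a b L).card ≤ I.card * M * K := by
  classical
  have hsub : sq S a b L ⊆ (I ×ˢ Finset.range M).biUnion
      (fun z => sq S (a + z.1 * (L / M)) (b + z.2 * (L / M)) (L / M)) := by
    intro p hp
    have hp' := mem_sq.mp hp
    obtain ⟨i, hi, hi2⟩ := cell hM hL hp'.2.1
    obtain ⟨j, hj, hj2⟩ := cell hM hL hp'.2.2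
    rw [Finset.mem_biUnion]
    refine ⟨(i, j), ?_, ?_⟩
    · rw [Finset.mem_product, Finset.mem_range]
      exact ⟨hI p hp i hi hi2, hj⟩
    · rw [mem_sq]; exact ⟨hp'.1, hi2, hj2⟩
  calc (sq S a b L).card ≤ _ := Finset.card_le_card hsub
    _ ≤ (I ×ˢ Finset.range M).card * K := by
        apply Finset.card_biUnion_le_card_mul
        intro z hz
        rw [Finset.mem_product, Finset.mem_range] at hz
        exact hK z.1 hz.1 z.2 hz.2
    _ = I.card * M * K := by rw [Finset.card_product, Finset.card_range]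

/-- hypotheses on `f` -/
structure Good (f : I01 → ℝ) (c H : ℝ) : Prop where
  up : ∀ x y : I01, |f x - f y| ≤ H * √|(x:ℝ) - y|
  lo : ∀ a L : ℝ, 0 ≤ a → 0 < L → a + L ≤ 1 → ∃ x y : I01, (x:ℝ) ∈ Icc a (a + L) ∧
    (y:ℝ) ∈ Icc a (a + L) ∧ c * √L ≤ |f x - f y|

section
variable {f : I01 → ℝ} {c H : ℝ} (hf : Good f c H) (hc : 0 < c) (hH : 0 < H)
  {M : ℕ} (hM2 : 2 ≤ M) (hMH : 9 * H ^ 2 / c ^ 2 < M) (hMc : 9 / c ^ 2 ≤ M)
include hf hc hH hM2 hMH

/-- porosity: some column misses the graph -/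
lemma porous {a b L : ℝ} (ha : 0 ≤ a) (hL : 0 < L) (haL : a + L ≤ 1) (hLc : L ≤ c ^ 2 / 9) :
    ∃ i0 < M, ∀ x : I01, (x:ℝ) ∈ Icc (a + i0 * (L / M)) (a + i0 * (L / M) + L / M) →
      f x ∉ Icc b (b + L) := by
  have hM0 : (0:ℝ) < M := by positivity
  obtain ⟨x, y, hx, hy, hxy⟩ := hf.lo a L ha hL haL
  have hsL : 0 < √L := Real.sqrt_pos.mpr hL
  have hLL : √L * √L = L := Real.mul_self_sqrt hL.le
  have hs3 : √L ≤ c / 3 := by
    rw [Real.sqrt_le_left (by positivity)]
    calc L ≤ c ^ 2 / 9 := hLc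
      _ = (c / 3) ^ 2 := by ring
  have hL3 : L ≤ c * √L / 3 := by nlinarith
  -- a point far from J
  have hfar : ∃ x0 : I01, (x0:ℝ) ∈ Icc a (a + L) ∧ ∀ t ∈ Icc b (b + L), c * √L / 3 ≤ |f x0 - t| := by
    by_contra hcon
    push Not at hcon
    obtain ⟨t1, ht1, h1⟩ := hcon x hx
    obtain ⟨t2, ht2, h2⟩ := hcon y hy
    have h3 : |t1 - t2| ≤ L := by
      rw [abs_le]; constructor <;> linarith [ht1.1, ht1.2, ht2.1, ht2.2]
    have h4 : |f x - f y| ≤ |f x - t1| + |t1 - t2| + |f y - t2| := by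
      have e : f x - f y = (f x - t1) + (t1 - t2) - (f y - t2) := by ring
      rw [e]
      refine (abs_sub _ _).trans ?_
      gcongr
      exact abs_add_le _ _
    linarith
  obtain ⟨x0, hx0, hfx0⟩ := hfar
  obtain ⟨i0, hi0, hi0'⟩ := cell (by omega : 1 ≤ M) hL hx0
  refine ⟨i0, hi0, fun z hz hfz => ?_⟩
  have h5 : |(x0:ℝ) - z| ≤ L / M := by
    rw [abs_le]; constructor <;> linarith [hz.1, hz.2, hi0'.1, hi0'.2]
  have h6 : |f x0 - f z| ≤ H * √(L / M) := (hf.up x0 z).trans (by gcongr)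
  have h7 := hfx0 _ hfz
  have h8 : H * √(L / M) < c * √L / 3 := by
    rw [Real.sqrt_div' _ hM0.le]
    have hsM : 0 < √(M:ℝ) := Real.sqrt_pos.mpr hM0
    have h9 : 3 * H / c < √(M:ℝ) := by
      apply Real.lt_sqrt_of_sq_lt
      have e9 : (3 * H / c) ^ 2 = 9 * H ^ 2 / c ^ 2 := by
        rw [div_pow]; ring
      rw [e9]; exact hMH
    rw [div_lt_iff₀ hc] at h9
    rw [mul_div_assoc', div_lt_div_iff₀ hsM (by norm_num)]
    nlinarith
  linarith

lemma count1 {S : Finset E2} {r : ℝ} (hr : 0 < r)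
    (hsep : ∀ p ∈ S, ∀ q ∈ S, p ≠ q → 2 * r < dist p q) (hS : ∀ p ∈ S, p ∈ graph f) (n : ℕ) :
    ∀ a b L : ℝ, 0 ≤ a → 0 < L → a + L ≤ 1 → L ≤ c ^ 2 / 9 → L / M ^ n ≤ r →
      (sq S a b L).card ≤ (M * (M - 1)) ^ n := by
  classical
  have hM0 : (0:ℝ) < M := by positivity
  induction n with
  | zero =>
    intro a b L _ _ _ _ h
    simpa using sq_one hr hsep (by simpa using h)
  | succ n ih =>
    intro a b L ha hL haL hLc h
    obtain ⟨i0, hi0, hcol⟩ := porous hf hc hH hM2 hMH (b := b) ha hL haL hLc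
    have hLM : L / M ≤ L := div_le_self hL.le (by exact_mod_cast (by omega : 1 ≤ M))
    have key := sq_split (S := S) (a := a) (b := b) (L := L) (M := M) (K := (M * (M - 1)) ^ n)
      (by omega) hL ((Finset.range M).erase i0) ?_ ?_
    · rw [Finset.card_erase_of_mem (Finset.mem_range.mpr hi0), Finset.card_range] at key
      calc _ ≤ _ := key
        _ = _ := by rw [pow_succ]; ring
    · intro p hp i hi hpi
      rw [Finset.mem_erase, Finset.mem_range]
      refine ⟨?_, hi⟩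
      rintro rfl
      rw [mem_sq] at hp
      obtain ⟨x, hx⟩ := hS p hp.1
      have e0 : p 0 = x := by rw [hx]; simp
      have e1 : p 1 = f x := by rw [hx]; simp
      rw [e0] at hpi
      rw [e1] at hp
      exact hcol x hpi hp.2.2
    · intro i hi j hj
      rw [Finset.mem_erase, Finset.mem_range] at hi
      apply ih
      · positivity
      · positivity
      · have h1 : (i:ℝ) + 1 ≤ M := by exact_mod_cast hi.2
        have h2 : ((i:ℝ) + 1) * (L / M) ≤ M * (L / M) := by gcongr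
        have h3 : (M:ℝ) * (L / M) = L := by field_simp
        linarith
      · exact hLM.trans hLc
      · rw [div_div, ← pow_succ']; exact h

include hMc in
lemma count2 {S : Finset E2} {r : ℝ} (hr : 0 < r)
    (hsep : ∀ p ∈ S, ∀ q ∈ S, p ≠ q → 2 * r < dist p q) (hS : ∀ p ∈ S, p ∈ graph f) (n : ℕ)
    {a b L : ℝ} (ha : 0 ≤ a) (hL : 0 < L) (haL : a + L ≤ 1) (h : L / M ^ n ≤ r) :
      (sq S a b L).card ≤ M * M * (M * (M - 1)) ^ n := by
  classical
  have hM0 : (0:ℝ) < M := by positivity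
  have hM1 : (1:ℝ) ≤ M := by exact_mod_cast (by omega : 1 ≤ M)
  have hLM : L / M ≤ c ^ 2 / 9 := by
    rw [div_le_iff₀ hM0]
    rw [div_le_iff₀ (by positivity)] at hMc
    have : L ≤ 1 := by linarith
    nlinarith
  have key := sq_split (S := S) (a := a) (b := b) (L := L) (M := M) (K := (M * (M - 1)) ^ n)
      (by omega) hL (Finset.range M) ?_ ?_
  · rw [Finset.card_range] at key
    exact key
  · intro p hp i hi hpi
    exact Finset.mem_range.mpr hi
  · intro i hi j hj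
    rw [Finset.mem_range] at hi
    apply count1 hf hc hH hM2 hMH hr hsep hS
    · positivity
    · positivity
    · have h1 : (i:ℝ) + 1 ≤ M := by exact_mod_cast hi
      have h2 : ((i:ℝ) + 1) * (L / M) ≤ M * (L / M) := by gcongr
      have h3 : (M:ℝ) * (L / M) = L := by field_simp
      linarith
    · exact hLM
    · refine le_trans ?_ h
      gcongr
      exact div_le_self hL.le hM1

end

end Pool.Agent.X86.OM
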