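import Mathlib

/-!
# The spaces `C^ω[0,1]`, graphs, Assouad dimension and Assouad spectrum
-/

set_option autoImplicit false

open Set Filter Topology
open scoped ENNReal

namespace Pool.Agent.X86.OM

/-- A (finite-valued) modulus of continuity on `[0,1]`: non-decreasing, positive on `(0,1]`,
and tending to `0 = ω(0)` at `0`. Only the values on `[0,1]` matter. -/
structure Modulus where
  /-- the underlying function -/
  toFun : ℝ → ℝ
  mono : MonotoneOn toFun (Icc 0 1)
  pos : ∀ t ∈ Ioc (0:ℝ) 1, 0 < toFun t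
  zero : toFun 0 = 0
  lim : Tendsto toFun (𝓝[>] 0) (𝓝 0)

/-- The unit interval. -/
abbrev I01 : Type := Icc (0:ℝ) 1

/-- `|f(x) - f(y)| ≤ C ω(|x-y|)` for all `x, y ∈ [0,1]`. -/
def HolderBound (ω : Modulus) (f : I01 → ℝ) (C : ℝ) : Prop :=
  ∀ x y : I01, |f x - f y| ≤ C * ω.toFun |(x:ℝ) - y|

lemma Modulus.nonneg (ω : Modulus) {t : ℝ} (ht : t ∈ Icc (0:ℝ) 1) : 0 ≤ ω.toFun t := by
  rcases eq_or_lt_of_le ht.1 with h | h
  · rw [← h, ω.zero]
  · exact (ω.pos t ⟨h, ht.2⟩).le

lemma dist_mem (x y : I01) : |(x:ℝ) - y| ∈ Icc (0:ℝ) 1 := by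
  refine ⟨abs_nonneg _, ?_⟩
  rw [abs_le]
  constructor <;> linarith [x.2.1, x.2.2, y.2.1, y.2.2]

lemma Modulus.nn (ω : Modulus) (x y : I01) : 0 ≤ ω.toFun |(x:ℝ) - y| := ω.nonneg (dist_mem x y)

lemma Modulus.pp (ω : Modulus) {x y : I01} (h : x ≠ y) : 0 < ω.toFun |(x:ℝ) - y| := by
  apply ω.pos
  refine ⟨?_, (dist_mem x y).2⟩
  rw [abs_pos, sub_ne_zero]
  exact fun h' => h (Subtype.ext h')

/-- The additive group underlying `C^ω[0,1]`. -/
def COmegaSub (ω : Modulus) : AddSubgroup (I01 → ℝ) where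
  carrier := {f | ∃ C, HolderBound ω f C}
  zero_mem' := ⟨0, fun x y => by simp⟩
  add_mem' := by
    rintro f g ⟨C, hC⟩ ⟨D, hD⟩
    refine ⟨C + D, fun x y => ?_⟩
    have h1 := hC x y
    have h2 := hD x y
    have e : (f + g) x - (f + g) y = (f x - f y) + (g x - g y) := by simp [Pi.add_apply]; ring
    rw [e, add_mul]
    exact (abs_add_le _ _).trans (add_le_add h1 h2)
  neg_mem' := by
    rintro f ⟨C, hC⟩
    refine ⟨C, fun x y => ?_⟩
    have e : (-f) x - (-f) y = -(f x - f y) := by simp [Pi.neg_apply]; ring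
    rw [e, abs_neg]
    exact hC x y

/-- The space `C^ω[0,1]` of all `f : [0,1] → ℝ` with `[f]_ω < ∞`. -/
def COmega (ω : Modulus) : Type := COmegaSub ω

instance (ω : Modulus) : AddCommGroup (COmega ω) := inferInstanceAs (AddCommGroup (COmegaSub ω))

instance (ω : Modulus) : CoeFun (COmega ω) (fun _ => I01 → ℝ) := ⟨fun f => f.1⟩

/-- `‖f‖_∞`. -/
noncomputable def supNorm (f : I01 → ℝ) : ℝ := ⨆ x, |f x|

/-- `[f]_ω = sup_{x ≠ y} |f(x)-f(y)| / ω(|x-y|)`. -/
noncomputable def seminorm (ω : Modulus) (f : I01 → ℝ) : ℝ :=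
  ⨆ z : {z : I01 × I01 // z.1 ≠ z.2}, |f z.1.1 - f z.1.2| / ω.toFun |(z.1.1 : ℝ) - z.1.2|

section norm
variable {ω : Modulus}

lemma sup_bdd (f : COmega ω) : BddAbove (range fun x => |f x|) := by
  obtain ⟨C, hC⟩ := f.2
  refine ⟨|f 0| + |C| * ω.toFun 1, ?_⟩
  rintro _ ⟨x, rfl⟩
  have h1 := hC x 0
  have h2 : ω.toFun |(x:ℝ) - (0 : I01)| ≤ ω.toFun 1 :=
    ω.mono (dist_mem x 0) ⟨zero_le_one, le_refl _⟩ (dist_mem x 0).2
  have h3 : |f x| ≤ |f 0| + |f x - f 0| := by
    have := abs_add_le (f 0) (f x - f 0)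
    simpa using this
  have h4 : C * ω.toFun |(x:ℝ) - (0 : I01)| ≤ |C| * ω.toFun 1 :=
    mul_le_mul (le_abs_self C) h2 (ω.nn x 0) (abs_nonneg _)
  change |f x| ≤ _
  calc |f x| ≤ |f 0| + |f x - f 0| := h3
    _ ≤ |f 0| + C * ω.toFun |(x:ℝ) - (0 : I01)| := by gcongr
    _ ≤ _ := by linarith

lemma semi_bdd (f : COmega ω) : BddAbove (range fun z : {z : I01 × I01 // z.1 ≠ z.2} =>
    |f z.1.1 - f z.1.2| / ω.toFun |(z.1.1 : ℝ) - z.1.2|) := by
  obtain ⟨C, hC⟩ := f.2
  refine ⟨C, ?_⟩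
  rintro _ ⟨z, rfl⟩
  change |f z.1.1 - f z.1.2| / ω.toFun |(z.1.1 : ℝ) - z.1.2| ≤ C
  rw [div_le_iff₀ (ω.pp z.2)]
  exact hC _ _

lemma abs_le_sup (f : COmega ω) (x : I01) : |f x| ≤ supNorm f := le_ciSup (sup_bdd f) x

lemma semi_nonneg (f : I01 → ℝ) : 0 ≤ seminorm ω f := by
  apply Real.iSup_nonneg
  intro z
  exact div_nonneg (abs_nonneg _) (ω.nn _ _)

lemma sup_nonneg (f : I01 → ℝ) : 0 ≤ supNorm f := Real.iSup_nonneg fun _ => abs_nonneg _

lemma diff_le_semi (f : COmega ω) (x y : I01) : |f x - f y| ≤ seminorm ω f * ω.toFun |(x:ℝ) - y| := by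
  rcases eq_or_ne x y with rfl | h
  · rw [sub_self (f x), abs_zero]
    exact mul_nonneg (semi_nonneg _) (ω.nn x x)
  · have := le_ciSup (semi_bdd f) ⟨(x, y), h⟩
    rw [← div_le_iff₀ (ω.pp h)]
    exact this

lemma sup_le {f : I01 → ℝ} {A : ℝ} (h : ∀ x, |f x| ≤ A) : supNorm f ≤ A := by
  have : Nonempty I01 := ⟨0⟩
  exact ciSup_le h

lemma semi_le {f : I01 → ℝ} {B : ℝ} (hB : 0 ≤ B) (h : HolderBound ω f B) : seminorm ω f ≤ B := by
  apply Real.iSup_le _ hB
  intro z
  rw [div_le_iff₀ (ω.pp z.2)]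
  exact h _ _

end norm

/-- the norm `‖f‖_ω = ‖f‖_∞ + [f]_ω` as an additive group norm -/
noncomputable def omegaNorm (ω : Modulus) : AddGroupNorm (COmega ω) where
  toFun f := supNorm f + seminorm ω f
  map_zero' := by
    have h1 : supNorm ((0 : COmega ω) : I01 → ℝ) = 0 := by
      apply le_antisymm _ (sup_nonneg _)
      apply sup_le
      intro x
      change |(0:ℝ)| ≤ 0
      simp
    have h2 : seminorm ω ((0 : COmega ω) : I01 → ℝ) = 0 := by
      apply le_antisymm _ (semi_nonneg _)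
      apply semi_le le_rfl
      intro x y
      change |(0:ℝ) - 0| ≤ _
      simp
    rw [h1, h2, add_zero]
  add_le' f g := by
    have h1 : supNorm ((f + g : COmega ω) : I01 → ℝ) ≤ supNorm f + supNorm g := by
      apply sup_le
      intro x
      change |f x + g x| ≤ _
      exact (abs_add_le _ _).trans (add_le_add (abs_le_sup f x) (abs_le_sup g x))
    have h2 : seminorm ω ((f + g : COmega ω) : I01 → ℝ) ≤ seminorm ω f + seminorm ω g := by
      apply semi_le (add_nonneg (semi_nonneg _) (semi_nonneg _))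
      intro x y
      change |(f x + g x) - (f y + g y)| ≤ _
      have e : (f x + g x) - (f y + g y) = (f x - f y) + (g x - g y) := by ring
      rw [e, add_mul]
      exact (abs_add_le _ _).trans (add_le_add (diff_le_semi f x y) (diff_le_semi g x y))
    linarith
  neg' f := by
    have h1 : supNorm ((-f : COmega ω) : I01 → ℝ) = supNorm f := by
      unfold supNorm
      congr 1; funext x
      change |-(f x)| = |f x|
      rw [abs_neg]
    have h2 : seminorm ω ((-f : COmega ω) : I01 → ℝ) = seminorm ω f := by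
      unfold seminorm
      congr 1; funext z
      change |-(f z.1.1) - -(f z.1.2)| / _ = |f z.1.1 - f z.1.2| / _
      rw [← neg_sub', abs_neg]
    rw [h1, h2]
  eq_zero_of_map_eq_zero' f hf := by
    apply Subtype.ext
    funext x
    have h1 := abs_le_sup f x
    have h2 := sup_nonneg (f : I01 → ℝ)
    have h3 := semi_nonneg (ω := ω) (f : I01 → ℝ)
    have h4 : |f x| ≤ 0 := by linarith
    exact abs_eq_zero.mp (le_antisymm h4 (abs_nonneg _))

noncomputable instance (ω : Modulus) : NormedAddCommGroup (COmega ω) :=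
  (omegaNorm ω).toNormedAddCommGroup

lemma norm_def {ω : Modulus} (f : COmega ω) : ‖f‖ = supNorm f + seminorm ω f := rfl

lemma sub_apply {ω : Modulus} (f g : COmega ω) (x : I01) : (f - g) x = f x - g x := rfl

/-- `C^ω[0,1]` is complete. -/
instance (ω : Modulus) : CompleteSpace (COmega ω) := by
  apply Metric.complete_of_cauchySeq_tendsto
  intro u hu
  have hpt : ∀ x, CauchySeq (fun n => u n x) := by
    intro x
    rw [Metric.cauchySeq_iff] at hu ⊢
    intro ε hε
    obtain ⟨n0, hn⟩ := hu ε hε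
    refine ⟨n0, fun m hm n hn' => lt_of_le_of_lt ?_ (hn m hm n hn')⟩
    rw [Real.dist_eq, dist_eq_norm, norm_def]
    have h1 := abs_le_sup (u m - u n) x
    rw [sub_apply] at h1
    linarith [semi_nonneg (ω := ω) ((u m - u n : COmega ω) : I01 → ℝ)]
  choose g hg using fun x => cauchySeq_tendsto_of_complete (hpt x)
  have key : ∀ ε > 0, ∃ n0, ∀ n ≥ n0, (∀ x, |u n x - g x| ≤ ε) ∧
      HolderBound ω (fun x => u n x - g x) ε := by
    intro ε hε
    rw [Metric.cauchySeq_iff] at hu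
    obtain ⟨n0, hn⟩ := hu ε hε
    refine ⟨n0, fun n hn' => ⟨fun x => ?_, fun x y => ?_⟩⟩
    · have h1 : Tendsto (fun m => |u n x - u m x|) atTop (𝓝 |u n x - g x|) :=
        (tendsto_const_nhds.sub (hg x)).abs
      refine le_of_tendsto h1 ?_
      filter_upwards [eventually_ge_atTop n0] with m hm
      have h2 := (hn n hn' m hm).le
      rw [dist_eq_norm, norm_def] at h2
      have h3 := abs_le_sup (u n - u m) x
      rw [sub_apply] at h3
      linarith [semi_nonneg (ω := ω) ((u n - u m : COmega ω) : I01 → ℝ)]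
    · have h1 : Tendsto (fun m => |(u n x - u m x) - (u n y - u m y)|) atTop
          (𝓝 |(u n x - g x) - (u n y - g y)|) :=
        ((tendsto_const_nhds.sub (hg x)).sub (tendsto_const_nhds.sub (hg y))).abs
      refine le_of_tendsto h1 ?_
      filter_upwards [eventually_ge_atTop n0] with m hm
      have h2 := (hn n hn' m hm).le
      rw [dist_eq_norm, norm_def] at h2
      have h3 := diff_le_semi (u n - u m) x y
      rw [sub_apply, sub_apply] at h3
      refine h3.trans (mul_le_mul_of_nonneg_right ?_ (ω.nn x y))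
      linarith [sup_nonneg ((u n - u m : COmega ω) : I01 → ℝ)]
  obtain ⟨n1, hn1⟩ := key 1 one_pos
  have hgmem : ∃ C, HolderBound ω g C := by
    obtain ⟨C, hC⟩ := (u n1).2
    refine ⟨C + 1, fun x y => ?_⟩
    have h1 := (hn1 n1 le_rfl).2 x y
    have h2 := hC x y
    have e : g x - g y = (u n1 x - u n1 y) - ((u n1 x - g x) - (u n1 y - g y)) := by ring
    rw [e, add_mul]
    exact (abs_sub _ _).trans (add_le_add h2 h1)
  let G : COmega ω := ⟨g, hgmem⟩
  refine ⟨G, ?_⟩
  rw [Metric.tendsto_atTop]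
  intro ε hε
  obtain ⟨n0, hn⟩ := key (ε / 3) (by positivity)
  refine ⟨n0, fun n hn' => ?_⟩
  obtain ⟨h1, h2⟩ := hn n hn'
  rw [dist_eq_norm, norm_def]
  have h3 : supNorm ((u n - G : COmega ω) : I01 → ℝ) ≤ ε / 3 := sup_le h1
  have h4 : seminorm ω ((u n - G : COmega ω) : I01 → ℝ) ≤ ε / 3 := semi_le (by positivity) h2
  linarith

/-! ### Graphs and Assouad dimensions -/

/-- The Euclidean plane. -/
abbrev E2 : Type := EuclideanSpace ℝ (Fin 2)

/-- The graph `G_f = {(x, f(x)) : x ∈ [0,1]}`. -/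
noncomputable def graph (f : I01 → ℝ) : Set E2 := {p | ∃ x : I01, p = !₂[(x:ℝ), f x]}

/-- `N_r(E)`: the largest number of pairwise disjoint closed balls of radius `r` with centres
in `E`, as an element of `[0,∞]`. -/
noncomputable def packNum (E : Set E2) (r : ℝ) : ℝ≥0∞ :=
  ⨆ S ∈ {S : Finset E2 | (S : Set E2) ⊆ E ∧
    (S : Set E2).PairwiseDisjoint fun x => Metric.closedBall x r}, (S.card : ℝ≥0∞)

/-- The set of exponents `β` in the definition of the Assouad dimension. -/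
def assouadSet (F : Set E2) : Set ℝ :=
  {β | ∃ C > 0, ∀ r R : ℝ, 0 < r → r < R → ∀ x ∈ F,
    packNum (Metric.ball x R ∩ F) r ≤ ENNReal.ofReal (C * (R / r) ^ β)}

/-- The Assouad dimension. -/
noncomputable def assouadDim (F : Set E2) : ℝ := sInf (assouadSet F)

/-- The set of exponents `β` in the definition of the Assouad spectrum. -/
def spectrumSet (θ : ℝ) (F : Set E2) : Set ℝ :=
  {β | ∃ C > 0, ∀ r : ℝ, 0 < r → r < 1 → ∀ x ∈ F,
    packNum (Metric.ball x (r ^ θ) ∩ F) r ≤ ENNReal.ofReal (C * (r ^ (θ - 1)) ^ β)}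

/-- The Assouad spectrum. -/
noncomputable def assouadSpectrum (θ : ℝ) (F : Set E2) : ℝ := sInf (spectrumSet θ F)

end Pool.Agent.X86.OM
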