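import Pool.Agent.X86.OM.Count

/-! the Assouad dimension of porous graphs -/

set_option autoImplicit false

open Set Filter Topology
open scoped ENNReal

namespace Pool.Agent.X86.OM

lemma packNum_le {E : Set E2} {r K : ℝ} (hr : 0 < r)
    (h : ∀ S : Finset E2, (∀ p ∈ S, p ∈ E) → (∀ p ∈ S, ∀ q ∈ S, p ≠ q → 2 * r < dist p q) →
      (S.card : ℝ) ≤ K) : packNum E r ≤ ENNReal.ofReal K := by
  unfold packNum
  apply iSup₂_le
  intro S hS
  have h1 := h S (fun p hp => hS.1 hp) (fun p hp q hq hpq => by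
    have := hS.2 hp hq hpq
    rw [Function.onFun, disjoint_closedBall_closedBall_iff hr.le hr.le] at this
    linarith)
  rw [← ENNReal.ofReal_natCast]
  exact ENNReal.ofReal_le_ofReal h1

lemma one_le_packNum {E : Set E2} {r : ℝ} {x : E2} (hx : x ∈ E) : 1 ≤ packNum E r := by
  unfold packNum
  refine le_trans ?_ (le_iSup₂ (f := fun (S : Finset E2) (_ : S ∈ {S : Finset E2 | (S : Set E2) ⊆ E ∧
    (S : Set E2).PairwiseDisjoint fun x => Metric.closedBall x r}) => (S.card : ℝ≥0∞)) {x} ?_)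
  · simp
  · refine ⟨by simpa using hx, by simp⟩

section
variable {f : I01 → ℝ} {c H : ℝ} (hf : Good f c H) (hc : 0 < c) (hH : 0 < H)
  {M : ℕ} (hM2 : 2 ≤ M) (hMH : 9 * H ^ 2 / c ^ 2 < M) (hMc : 9 / c ^ 2 ≤ M)
include hf hc hH hM2 hMH hMc

theorem mem_assouadSet : Real.logb M (M * (M - 1)) ∈ assouadSet (graph f) := by
  classical
  have hM0 : (0:ℝ) < M := by positivity
  have hM1 : (1:ℝ) < M := by exact_mod_cast (by omega : 1 < M)
  have hMR2 : (2:ℝ) ≤ M := by exact_mod_cast hM2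
  set β := Real.logb M (M * (M - 1)) with hβ
  have hP : (0:ℝ) < M * (M - 1) := by nlinarith
  have hMβ : (M:ℝ) ^ β = M * (M - 1) := Real.rpow_logb hM0 hM1.ne' hP
  have hβ0 : 0 ≤ β := by
    apply Real.logb_nonneg hM1
    nlinarith
  have hcast : (((M * (M - 1) : ℕ)) : ℝ) = M * (M - 1) := by
    push_cast [Nat.cast_sub (by omega : 1 ≤ M)]; ring
  -- bound on f
  set B : ℝ := |f 0| + H with hB
  have hfB : ∀ x, |f x| ≤ B := by
    intro x
    have h1 := hf.up x 0
    have h2 : √|(x:ℝ) - (0 : I01)| ≤ 1 := by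
      exact Real.sqrt_le_one.mpr (dist_mem x 0).2
    have h3 : |f x| ≤ |f 0| + |f x - f 0| := by
      have := abs_add_le (f 0) (f x - f 0)
      simpa using this
    nlinarith
  set m : ℕ := ⌈2 * B⌉₊ + 1 with hm
  have hm1 : (1:ℝ) ≤ m := by rw [hm]; push_cast; linarith [Nat.cast_nonneg (α := ℝ) ⌈2 * B⌉₊]
  refine ⟨m * (M * M * (M * (M - 1))) * 2 ^ β, by positivity, ?_⟩
  intro r R hr hrR x0 hx0
  have hR : 0 < R := hr.trans hrR
  apply packNum_le hr
  intro S hS hsep
  have hSg : ∀ p ∈ S, p ∈ graph f := fun p hp => (hS p hp).2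
  have hx1 : 1 ≤ 2 * R / r := by rw [le_div_iff₀ hr]; linarith
  obtain ⟨n, hn1, hn2⟩ := exists_nat_pow_near hx1 hM1
  -- the numerical estimate
  have hnum : ((M * M * (M * (M - 1)) ^ (n + 1) : ℕ) : ℝ) ≤
      (M * M * (M * (M - 1))) * 2 ^ β * (R / r) ^ β := by
    rw [Nat.cast_mul, Nat.cast_pow, hcast, Nat.cast_mul, pow_succ]
    have h1 : ((M:ℝ) * (M - 1)) ^ n ≤ (2 * R / r) ^ β := by
      rw [← hMβ, ← Real.rpow_natCast, ← Real.rpow_mul hM0.le, mul_comm, Real.rpow_mul hM0.le,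
        Real.rpow_natCast]
      exact Real.rpow_le_rpow (by positivity) hn1 hβ0
    have h2 : (2 * R / r) ^ β = 2 ^ β * (R / r) ^ β := by
      rw [mul_div_assoc, Real.mul_rpow (by norm_num) (by positivity)]
    rw [h2] at h1
    calc (M:ℝ) * M * ((M * (M - 1)) ^ n * (M * (M - 1))) =
          (M * M * (M * (M - 1))) * (M * (M - 1)) ^ n := by ring
      _ ≤ (M * M * (M * (M - 1))) * (2 ^ β * (R / r) ^ β) := by gcongr
      _ = _ := by ring
  -- squares of side at most 1
  have hsq : ∀ a b L : ℝ, 0 ≤ a → 0 < L → a + L ≤ 1 → L ≤ 2 * R →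
      ((sq S a b L).card : ℝ) ≤ (M * M * (M * (M - 1))) * 2 ^ β * (R / r) ^ β := by
    intro a b L ha hL haL hLR
    refine le_trans ?_ hnum
    exact_mod_cast count2 hf hc hH hM2 hMH hMc hr hsep hSg (n + 1) ha hL haL (by
      rw [div_le_iff₀ (by positivity)]
      rw [div_lt_iff₀ hr] at hn2
      linarith)
  have hfin : (S.card : ℝ) ≤ m * ((M * M * (M * (M - 1))) * 2 ^ β * (R / r) ^ β) := by
    have hnn : 0 ≤ (M * M * (M * ((M:ℝ) - 1))) * 2 ^ β * (R / r) ^ β := by positivity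
    rcases le_or_gt (2 * R) 1 with h | h
    · -- small R
      set a : ℝ := max 0 (min (x0 0 - R) (1 - 2 * R)) with ha
      have ha0 : 0 ≤ a := le_max_left _ _
      have ha1 : a + 2 * R ≤ 1 := by
        rcases max_choice 0 (min (x0 0 - R) (1 - 2 * R)) with h1 | h1
        · rw [ha, h1]; linarith
        · rw [ha, h1]
          have := min_le_right (x0 0 - R) (1 - 2 * R)
          linarith
      have hall : S ⊆ sq S a (x0 1 - R) (2 * R) := by
        intro p hp
        obtain ⟨hpb, xp, hxp⟩ := hS p hp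
        have e0 : p 0 = xp := by rw [hxp]; simp
        have hp01 : 0 ≤ p 0 ∧ p 0 ≤ 1 := by rw [e0]; exact xp.2
        rw [Metric.mem_ball, EuclideanSpace.dist_eq, Fin.sum_univ_two, Real.dist_eq,
          Real.dist_eq] at hpb
        have hc0 : |p 0 - x0 0| ≤ R := by
          refine le_trans ?_ hpb.le
          apply Real.le_sqrt_of_sq_le
          nlinarith [sq_nonneg (|p 1 - x0 1|)]
        have hc1 : |p 1 - x0 1| ≤ R := by
          refine le_trans ?_ hpb.le
          apply Real.le_sqrt_of_sq_le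
          nlinarith [sq_nonneg (|p 0 - x0 0|)]
        rw [abs_le] at hc0 hc1
        rw [mem_sq]
        refine ⟨hp, ⟨?_, ?_⟩, by constructor <;> linarith⟩
        · rw [ha]
          apply max_le hp01.1
          exact (min_le_left _ _).trans (by linarith)
        · have h1 : min (x0 0 - R) (1 - 2 * R) ≤ a := le_max_right _ _
          rcases min_choice (x0 0 - R) (1 - 2 * R) with h2 | h2
          · rw [h2] at h1; linarith
          · rw [h2] at h1; linarith
      calc (S.card : ℝ) ≤ ((sq S a (x0 1 - R) (2 * R)).card : ℝ) := by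
            exact_mod_cast Finset.card_le_card hall
        _ ≤ _ := hsq _ _ _ ha0 (by positivity) ha1 le_rfl
        _ ≤ _ := le_mul_of_one_le_left hnn hm1
    · -- large R
      have hall : S ⊆ (Finset.range m).biUnion (fun j => sq S 0 (-B + j) 1) := by
        intro p hp
        obtain ⟨hpb, xp, hxp⟩ := hS p hp
        have e0 : p 0 = xp := by rw [hxp]; simp
        have e1 : p 1 = f xp := by rw [hxp]; simp
        have hpB := abs_le.mp (hfB xp)
        rw [Finset.mem_biUnion]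
        refine ⟨⌊p 1 + B⌋₊, ?_, ?_⟩
        · rw [Finset.mem_range, hm, Nat.lt_succ_iff]
          refine (Nat.floor_le_floor (by rw [e1]; linarith [hpB.2] : p 1 + B ≤ 2 * B)).trans
            (Nat.floor_le_ceil _)
        · rw [mem_sq]
          have h0 : 0 ≤ p 1 + B := by rw [e1]; linarith [hpB.1]
          have h1 := Nat.floor_le h0
          have h2 := Nat.lt_floor_add_one (p 1 + B)
          refine ⟨hp, ?_, by constructor <;> linarith⟩
          rw [e0]; simp
      calc (S.card : ℝ) ≤ (((Finset.range m).biUnion (fun j => sq S 0 (-B + j) 1)).card : ℝ) := by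
            exact_mod_cast Finset.card_le_card hall
        _ ≤ ((∑ j ∈ Finset.range m, (sq S 0 (-B + j) 1).card : ℕ) : ℝ) := by
            exact_mod_cast Finset.card_biUnion_le
        _ ≤ ∑ j ∈ Finset.range m, (M * M * (M * (M - 1))) * 2 ^ β * (R / r) ^ β := by
            push_cast
            apply Finset.sum_le_sum
            intro j _
            exact hsq _ _ _ le_rfl one_pos (by norm_num) (by linarith)
        _ = _ := by rw [Finset.sum_const, Finset.card_range, nsmul_eq_mul]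
  calc (S.card : ℝ) ≤ _ := hfin
    _ = _ := by ring

end

lemma beta_lt {M : ℕ} (hM2 : 2 ≤ M) : Real.logb M (M * (M - 1)) < 2 := by
  have hM1 : (1:ℝ) < M := by exact_mod_cast (by omega : 1 < M)
  have hP : (0:ℝ) < M * (M - 1) := by nlinarith
  rw [Real.logb_lt_iff_lt_rpow hM1 hP]
  have : (M:ℝ) ^ (2:ℝ) = M * M := by
    rw [show (2:ℝ) = ((2:ℕ):ℝ) by norm_num, Real.rpow_natCast]; ring
  rw [this]
  nlinarith

lemma assouadSet_bdd {F : Set E2} (hF : F.Nonempty) : BddBelow (assouadSet F) := by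
  obtain ⟨x, hx⟩ := hF
  refine ⟨0, ?_⟩
  rintro β ⟨C, hC, h⟩
  by_contra hβ
  push Not at hβ
  have h1 : Tendsto (fun R : ℝ => C * (R / 1) ^ β) atTop (𝓝 (C * 0)) := by
    apply Tendsto.const_mul
    have := tendsto_rpow_neg_atTop (y := -β) (by linarith)
    simpa using this
  rw [mul_zero] at h1
  have h2 : ∀ᶠ R : ℝ in atTop, C * (R / 1) ^ β < 1 := h1.eventually_lt_const one_pos
  obtain ⟨R, hR1, hR2⟩ := (h2.and (eventually_gt_atTop 1)).exists
  have h3 := h 1 R one_pos hR2 x hx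
  have h4 : (1:ℝ≥0∞) ≤ packNum (Metric.ball x R ∩ F) 1 :=
    one_le_packNum ⟨Metric.mem_ball_self (by linarith), hx⟩
  have h5 := h4.trans h3
  rw [ENNReal.one_le_ofReal] at h5
  linarith

lemma spectrumSet_bdd {F : Set E2} (hF : F.Nonempty) {θ : ℝ} (hθ : θ < 1) :
    BddBelow (spectrumSet θ F) := by
  obtain ⟨x, hx⟩ := hF
  refine ⟨0, ?_⟩
  rintro β ⟨C, hC, h⟩
  by_contra hβ
  push Not at hβ
  have h1 : Tendsto (fun r : ℝ => C * (r ^ (θ - 1)) ^ β) (𝓝[>] 0) (𝓝 (C * 0)) := by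
    apply Tendsto.const_mul
    have hy : 0 < (θ - 1) * β := by nlinarith
    have h0 : Tendsto (fun r : ℝ => r ^ ((θ - 1) * β)) (𝓝[>] 0) (𝓝 0) := by
      have h00 := (Real.continuousAt_rpow_const 0 ((θ - 1) * β) (Or.inr hy.le)).tendsto
      rw [Real.zero_rpow hy.ne'] at h00
      exact h00.mono_left nhdsWithin_le_nhds
    refine h0.congr' ?_
    filter_upwards [self_mem_nhdsWithin] with r hr
    rw [Real.rpow_mul (le_of_lt hr)]
  rw [mul_zero] at h1
  have h2 : ∀ᶠ r : ℝ in 𝓝[>] 0, C * (r ^ (θ - 1)) ^ β < 1 := h1.eventually_lt_const one_pos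
  obtain ⟨r, hr1, hr2⟩ := (h2.and (Ioo_mem_nhdsGT (one_pos : (0:ℝ) < 1))).exists
  have h3 := h r hr2.1 hr2.2 x hx
  have h4 : (1:ℝ≥0∞) ≤ packNum (Metric.ball x (r ^ θ) ∩ F) r :=
    one_le_packNum ⟨Metric.mem_ball_self (Real.rpow_pos_of_pos hr2.1 _), hx⟩
  have h5 := h4.trans h3
  rw [ENNReal.one_le_ofReal] at h5
  linarith

lemma assouadSet_subset {F : Set E2} {θ : ℝ} (hθ : θ < 1) : assouadSet F ⊆ spectrumSet θ F := by
  rintro β ⟨C, hC, h⟩
  refine ⟨C, hC, fun r hr hr1 x hx => ?_⟩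
  have h1 : r < r ^ θ := by
    calc r = r ^ (1:ℝ) := (Real.rpow_one r).symm
      _ < r ^ θ := Real.rpow_lt_rpow_of_exponent_gt hr hr1 hθ
  have h2 := h r (r ^ θ) hr h1 x hx
  rwa [show r ^ θ / r = r ^ (θ - 1) by rw [Real.rpow_sub hr, Real.rpow_one]] at h2

lemma graph_nonempty (f : I01 → ℝ) : (graph f).Nonempty := ⟨_, 0, rfl⟩

end Pool.Agent.X86.OM
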