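import Pool.Agent.X86.OM.Takagi

set_option autoImplicit false

open Set Filter Topology
open scoped ENNReal

namespace Pool.Agent.X86.OM

/-- The modulus `ω(t) = √t`. -/
noncomputable def sqrtMod : Modulus where
  toFun t := √t
  mono := fun _ _ _ _ h => Real.sqrt_le_sqrt h
  pos := fun _ ht => Real.sqrt_pos.mpr ht.1
  zero := Real.sqrt_zero
  lim := by
    have := Real.continuous_sqrt.tendsto 0
    rw [Real.sqrt_zero] at this
    exact this.mono_left nhdsWithin_le_nhds

lemma sqrtMod_concave : ConcaveOn ℝ (Icc 0 1) sqrtMod.toFun := by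
  have h := Real.concaveOn_rpow (p := 1 / 2) (by norm_num) (by norm_num)
  have h2 : ConcaveOn ℝ (Ici 0) sqrtMod.toFun := by
    convert h using 1
    funext t
    exact Real.sqrt_eq_rpow t
  exact h2.subset (fun t ht => ht.1) (convex_Icc 0 1)

lemma sqrtMod_div : Tendsto (fun t => sqrtMod.toFun t / t) (𝓝[>] 0) atTop := by
  have h1 : Tendsto (fun t : ℝ => (√t)⁻¹) (𝓝[>] 0) atTop := by
    apply Tendsto.inv_tendsto_nhdsGT_zero
    rw [tendsto_nhdsWithin_iff]
    refine ⟨?_, ?_⟩
    · have := Real.continuous_sqrt.tendsto 0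
      rw [Real.sqrt_zero] at this
      exact this.mono_left nhdsWithin_le_nhds
    · filter_upwards [self_mem_nhdsWithin] with t ht
      exact Real.sqrt_pos.mpr ht
  refine h1.congr' ?_
  filter_upwards [self_mem_nhdsWithin] with t ht
  have ht' : (0:ℝ) < t := ht
  change (√t)⁻¹ = √t / t
  have := Real.mul_self_sqrt ht'.le
  have hs := Real.sqrt_pos.mpr ht'
  field_simp
  nlinarith

lemma sqrtMod_log : Tendsto (fun t => Real.log (sqrtMod.toFun t) / Real.log t) (𝓝[>] 0) (𝓝 (1 / 2)) := by
  apply tendsto_const_nhds.congr'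
  filter_upwards [Ioo_mem_nhdsGT (one_pos : (0:ℝ) < 1)] with t ht
  change 1 / 2 = Real.log (√t) / Real.log t
  rw [Real.log_sqrt ht.1.le]
  have : Real.log t ≠ 0 := (Real.log_neg ht.1 ht.2).ne
  field_simp

/-- The centre of the ball. -/
noncomputable def f0 : COmega sqrtMod :=
  ⟨fun x => tak x, 2, fun x y => tak_up x y (dist_mem x y).2⟩

/-- The uniform exponent. -/
noncomputable def β0 : ℝ := Real.logb (104977 : ℕ) ((104977 : ℕ) * ((104977 : ℕ) - 1))

lemma β0_lt : β0 < 2 := beta_lt (M := 104977) (by norm_num)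

theorem ball_mem (g : COmega sqrtMod) (hg : dist g f0 < 1 / 36) : β0 ∈ assouadSet (graph g) := by
  rw [dist_eq_norm, norm_def] at hg
  have hgood : Good g (1 / 36) 3 := by
    apply good_near (ε := seminorm sqrtMod ((g - f0 : COmega sqrtMod) : I01 → ℝ))
    · intro x y
      exact diff_le_semi (g - f0) x y
    · linarith [sup_nonneg ((g - f0 : COmega sqrtMod) : I01 → ℝ)]
  exact mem_assouadSet hgood (by norm_num) (by norm_num) (M := 104977) (by norm_num)
    (by norm_num) (by norm_num)

theorem ball_dim (g : COmega sqrtMod) (hg : dist g f0 < 1 / 36) : assouadDim (graph g) ≤ β0 :=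
  csInf_le (assouadSet_bdd (graph_nonempty _)) (ball_mem g hg)

theorem ball_spec (g : COmega sqrtMod) (hg : dist g f0 < 1 / 36) {θ : ℝ} (hθ : θ < 1) :
    assouadSpectrum θ (graph g) ≤ β0 :=
  csInf_le (spectrumSet_bdd (graph_nonempty _) hθ) (assouadSet_subset hθ (ball_mem g hg))

end Pool.Agent.X86.OM
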