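import Pool.Agent.X86.OM.Dim

/-! a self-affine function with lower and upper `√`-oscillation at all scales -/

set_option autoImplicit false

open Set Filter Topology
open scoped ENNReal

namespace Pool.Agent.X86.OM

/-- distance to the nearest integer -/
noncomputable def tri (x : ℝ) : ℝ := |x - round x|

lemma tri_nonneg (x : ℝ) : 0 ≤ tri x := abs_nonneg _
lemma tri_le (x : ℝ) : tri x ≤ 1 / 2 := abs_sub_round x
lemma tri_int (n : ℤ) : tri n = 0 := by simp [tri]

lemma tri_lip (x y : ℝ) : |tri x - tri y| ≤ |x - y| := by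
  have key : ∀ x y : ℝ, tri x ≤ |x - y| + tri y := by
    intro x y
    calc tri x ≤ |x - round y| := round_le x (round y)
      _ = |(x - y) + (y - round y)| := by ring_nf
      _ ≤ _ := abs_add_le _ _
  rw [abs_le]
  constructor
  · have := key y x
    rw [abs_sub_comm] at this
    linarith
  · linarith [key x y]

lemma tri_half (n : ℤ) : tri (n + 1 / 2) = 1 / 2 := by
  apply le_antisymm (tri_le _)
  unfold tri
  set m : ℤ := round ((n:ℝ) + 1 / 2)
  rcases le_or_gt m n with h | h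
  · have h1 : (m:ℝ) ≤ n := by exact_mod_cast h
    rw [abs_of_nonneg (by linarith)]; linarith
  · have h1 : (n:ℝ) + 1 ≤ m := by exact_mod_cast h
    rw [abs_of_nonpos (by linarith)]; linarith

/-- the terms -/
noncomputable def term (x : ℝ) (k : ℕ) : ℝ := (1 / 4) ^ k * tri (16 ^ k * x)

/-- the function -/
noncomputable def tak (x : ℝ) : ℝ := ∑' k, term x k

lemma term_nonneg (x : ℝ) (k : ℕ) : 0 ≤ term x k := mul_nonneg (by positivity) (tri_nonneg _)

lemma term_le (x : ℝ) (k : ℕ) : term x k ≤ (1 / 4) ^ k * (1 / 2) := by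
  unfold term
  gcongr
  exact tri_le _

lemma summ_maj : Summable (fun k : ℕ => (1 / 4 : ℝ) ^ k * (1 / 2)) :=
  (summable_geometric_of_lt_one (by norm_num) (by norm_num)).mul_right _

lemma summ (x : ℝ) : Summable (term x) :=
  Summable.of_nonneg_of_le (term_nonneg x) (term_le x) summ_maj

lemma term_diff1 (x y : ℝ) (k : ℕ) : |term x k - term y k| ≤ 4 ^ k * |x - y| := by
  unfold term
  rw [← mul_sub, abs_mul, abs_of_pos (by positivity)]
  calc (1 / 4 : ℝ) ^ k * |tri (16 ^ k * x) - tri (16 ^ k * y)|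
      ≤ (1 / 4 : ℝ) ^ k * |16 ^ k * x - 16 ^ k * y| :=
        mul_le_mul_of_nonneg_left (tri_lip _ _) (by positivity)
    _ = 4 ^ k * |x - y| := by
        rw [← mul_sub, abs_mul, abs_of_pos (by positivity : (0:ℝ) < 16 ^ k), ← mul_assoc, ← mul_pow]
        norm_num

lemma term_diff2 (x y : ℝ) (k : ℕ) : |term x k - term y k| ≤ (1 / 4) ^ k * (1 / 2) := by
  rw [abs_le]
  constructor <;> linarith [term_nonneg x k, term_nonneg y k, term_le x k, term_le y k]

lemma geo4 (n : ℕ) : ∑ k ∈ Finset.range n, (4:ℝ) ^ k = (4 ^ n - 1) / 3 := by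
  rw [geom_sum_eq (by norm_num)]; norm_num

lemma tak_up (x y : ℝ) (h : |x - y| ≤ 1) : |tak x - tak y| ≤ 2 * √|x - y| := by
  rcases eq_or_ne x y with rfl | hne
  · simp
  set d := |x - y| with hd
  have hd0 : 0 < d := abs_pos.mpr (sub_ne_zero.mpr hne)
  obtain ⟨n, hn1, hn2⟩ := exists_nat_pow_near_of_lt_one hd0 h (by norm_num : (0:ℝ) < 1 / 16)
    (by norm_num)
  have hs : 0 < √d := Real.sqrt_pos.mpr hd0
  have hss : √d * √d = d := Real.mul_self_sqrt hd0.le
  have h4 : √d ≤ (1 / 4) ^ n := by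
    rw [Real.sqrt_le_left (by positivity), ← pow_mul, mul_comm, pow_mul,
      show ((1:ℝ) / 4) ^ 2 = 1 / 16 by norm_num]
    exact hn2
  have h5 : (1 / 4 : ℝ) ^ (n + 1) < √d := by
    apply Real.lt_sqrt_of_sq_lt
    rw [← pow_mul, mul_comm, pow_mul, show ((1:ℝ) / 4) ^ 2 = 1 / 16 by norm_num]
    exact hn1
  have hsum : Summable (fun k => term x k - term y k) := (summ x).sub (summ y)
  have e1 : tak x - tak y = ∑' k, (term x k - term y k) := ((summ x).tsum_sub (summ y)).symm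
  rw [e1, ← hsum.sum_add_tsum_nat_add (n + 1)]
  have b1 : |∑ k ∈ Finset.range (n + 1), (term x k - term y k)| ≤ 4 / 3 * √d := by
    calc _ ≤ ∑ k ∈ Finset.range (n + 1), |term x k - term y k| := Finset.abs_sum_le_sum_abs _ _
      _ ≤ ∑ k ∈ Finset.range (n + 1), 4 ^ k * d := Finset.sum_le_sum fun k _ => term_diff1 x y k
      _ = (4 ^ (n + 1) - 1) / 3 * d := by rw [← Finset.sum_mul, geo4]
      _ ≤ 4 ^ (n + 1) / 3 * d := by gcongr; linarith
      _ = 4 / 3 * (4 ^ n * √d) * √d := by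
          rw [pow_succ]
          linear_combination (-(4:ℝ) ^ n * 4 / 3) * hss
      _ ≤ 4 / 3 * 1 * √d := by
          gcongr
          calc (4:ℝ) ^ n * √d ≤ 4 ^ n * (1 / 4) ^ n := by gcongr
            _ = 1 := by rw [← mul_pow]; norm_num
      _ = _ := by ring
  have b2 : |∑' k, (term x (k + (n + 1)) - term y (k + (n + 1)))| ≤ 2 / 3 * √d := by
    have hs2 : Summable (fun k : ℕ => (1 / 4 : ℝ) ^ (k + (n + 1)) * (1 / 2)) :=
      (summable_nat_add_iff (n + 1)).mpr summ_maj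
    have hs3 : Summable (fun k : ℕ => ‖term x (k + (n + 1)) - term y (k + (n + 1))‖) :=
      Summable.of_nonneg_of_le (fun _ => norm_nonneg _)
        (fun k => term_diff2 x y (k + (n + 1))) hs2
    have h6 := norm_tsum_le_tsum_norm hs3
    rw [Real.norm_eq_abs] at h6
    refine h6.trans ?_
    have h7 : ∑' k : ℕ, ‖term x (k + (n + 1)) - term y (k + (n + 1))‖ ≤
        ∑' k : ℕ, (1 / 4 : ℝ) ^ (k + (n + 1)) * (1 / 2) :=
      hs3.tsum_le_tsum (fun k => term_diff2 x y (k + (n + 1))) hs2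
    refine h7.trans ?_
    have e2 : ∑' k : ℕ, (1 / 4 : ℝ) ^ (k + (n + 1)) * (1 / 2) = (1 / 4 : ℝ) ^ (n + 1) * (2 / 3) := by
      have : (fun k : ℕ => (1 / 4 : ℝ) ^ (k + (n + 1)) * (1 / 2)) =
          fun k : ℕ => (1 / 4 : ℝ) ^ k * ((1 / 4 : ℝ) ^ (n + 1) * (1 / 2)) := by
        funext k; rw [pow_add]; ring
      rw [this, tsum_mul_right, tsum_geometric_of_lt_one (by norm_num) (by norm_num)]
      ring
    rw [e2]
    linarith
  calc _ ≤ _ := abs_add_le _ _
    _ ≤ 4 / 3 * √d + 2 / 3 * √d := add_le_add b1 b2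
    _ = _ := by ring

lemma tak_lo (a L : ℝ) (hL : 0 < L) (hL1 : L ≤ 1) : ∃ x y : ℝ, x ∈ Icc a (a + L) ∧
    y ∈ Icc a (a + L) ∧ 1 / 18 * √L ≤ |tak x - tak y| := by
  -- scale
  obtain ⟨n, hn1, hn2⟩ : ∃ n : ℕ, 2 * (1 / 16 : ℝ) ^ n ≤ L ∧ L ≤ 32 * (1 / 16) ^ n := by
    obtain ⟨m, hm1, hm2⟩ := exists_nat_pow_near_of_lt_one (by positivity : 0 < L / 2) (by linarith)
      (by norm_num : (0:ℝ) < 1 / 16) (by norm_num)
    refine ⟨m + 1, by linarith, ?_⟩
    rw [pow_succ]; linarith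
  have h16 : (0:ℝ) < 16 ^ n := by positivity
  have hinv : (1 / 16 : ℝ) ^ n = 1 / 16 ^ n := by rw [one_div_pow]
  rw [hinv] at hn1 hn2
  set j : ℤ := ⌈16 ^ n * a⌉ with hj
  have hj1 : 16 ^ n * a ≤ j := Int.le_ceil _
  have hj2 : (j:ℝ) < 16 ^ n * a + 1 := Int.ceil_lt_add_one _
  set x : ℝ := j / 16 ^ n with hx
  set y : ℝ := (j + 1 / 2) / 16 ^ n with hy
  have hxa : a ≤ x := by rw [hx, le_div_iff₀ h16]; linarith
  have hxy : y = x + 1 / 2 * (1 / 16 ^ n) := by rw [hx, hy]; ring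
  have hxb : x ≤ a + 1 / 16 ^ n := by
    rw [hx, div_le_iff₀ h16]
    have : (a + 1 / 16 ^ n) * 16 ^ n = 16 ^ n * a + 1 := by field_simp
    linarith
  have hpos : (0:ℝ) < 1 / 16 ^ n := by positivity
  refine ⟨x, y, ⟨hxa, by linarith⟩, ⟨by linarith, by linarith⟩, ?_⟩
  have hdxy : |y - x| = 1 / 2 * (1 / 16 ^ n) := by
    rw [hxy, add_sub_cancel_left, abs_of_pos (by positivity)]
  have hzero : ∀ k, k ∉ Finset.range (n + 1) → term y k - term x k = 0 := by
    intro k hk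
    rw [Finset.mem_range, not_lt] at hk
    obtain ⟨i, rfl⟩ : ∃ i, k = n + 1 + i := ⟨k - (n + 1), by omega⟩
    have e1 : (16:ℝ) ^ (n + 1 + i) * x = ((16 ^ (1 + i) * j : ℤ) : ℝ) := by
      rw [hx]; push_cast; rw [add_assoc, pow_add]; field_simp
    have e2 : (16:ℝ) ^ (n + 1 + i) * y = ((16 ^ (1 + i) * j + 8 * 16 ^ i : ℤ) : ℝ) := by
      rw [hy]; push_cast; rw [add_assoc, pow_add, pow_add]; field_simp; ring
    unfold term
    rw [e1, e2, tri_int, tri_int]; simp
  have e1 : tak y - tak x = ∑ k ∈ Finset.range (n + 1), (term y k - term x k) := by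
    unfold tak
    rw [← (summ y).tsum_sub (summ x), tsum_eq_sum hzero]
  have e2 : term y n - term x n = (1 / 4) ^ n * (1 / 2) := by
    unfold term
    have e3 : (16:ℝ) ^ n * x = j := by rw [hx]; field_simp
    have e4 : (16:ℝ) ^ n * y = j + 1 / 2 := by rw [hy]; field_simp
    rw [e3, e4, tri_int, tri_half]; ring
  rw [Finset.sum_range_succ, e2] at e1
  have b1 : |∑ k ∈ Finset.range n, (term y k - term x k)| ≤ (1 / 4) ^ n * (1 / 6) := by
    calc _ ≤ ∑ k ∈ Finset.range n, |term y k - term x k| := Finset.abs_sum_le_sum_abs _ _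
      _ ≤ ∑ k ∈ Finset.range n, 4 ^ k * |y - x| := Finset.sum_le_sum fun k _ => term_diff1 y x k
      _ = (4 ^ n - 1) / 3 * (1 / 2 * (1 / 16 ^ n)) := by rw [← Finset.sum_mul, geo4, hdxy]
      _ ≤ 4 ^ n / 3 * (1 / 2 * (1 / 16 ^ n)) := by gcongr; linarith
      _ = (1 / 4) ^ n * (1 / 6) := by
          have : (16:ℝ) ^ n = 4 ^ n * 4 ^ n := by rw [← mul_pow]; norm_num
          rw [this, one_div_pow]; field_simp; norm_num
  have b2 : (1 / 4 : ℝ) ^ n * (1 / 3) ≤ |tak x - tak y| := by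
    rw [abs_sub_comm, e1]
    refine le_trans ?_ (le_abs_self _)
    have := (abs_le.mp b1).1
    linarith
  have b3 : √L ≤ 6 * (1 / 4) ^ n := by
    rw [Real.sqrt_le_left (by positivity)]
    have : (16:ℝ) ^ n = 4 ^ n * 4 ^ n := by rw [← mul_pow]; norm_num
    calc L ≤ 32 * (1 / 16 ^ n) := hn2
      _ ≤ 36 * (1 / 16 ^ n) := by gcongr; norm_num
      _ = (6 * (1 / 4) ^ n) ^ 2 := by rw [this, one_div_pow]; field_simp; norm_num
  linarith

/-- the function as an element of the unit-interval function space is good, and so are all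
functions close to it -/
lemma good_near {g : I01 → ℝ} {ε : ℝ} (hg : ∀ x y : I01, |(g x - tak x) - (g y - tak y)| ≤
    ε * √|(x:ℝ) - y|) (hε : ε ≤ 1 / 36) : Good g (1 / 36) 3 := by
  constructor
  · intro x y
    have h1 := hg x y
    have h2 := tak_up x y (dist_mem x y).2
    have e : g x - g y = ((g x - tak x) - (g y - tak y)) + (tak x - tak y) := by ring
    rw [e]
    refine (abs_add_le _ _).trans ?_
    have := Real.sqrt_nonneg |(x:ℝ) - y|
    nlinarith
  · intro a L ha hL haL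
    obtain ⟨x, y, hx, hy, hxy⟩ := tak_lo a L hL (by linarith)
    have hx1 : x ∈ Icc (0:ℝ) 1 := ⟨ha.trans hx.1, hx.2.trans haL⟩
    have hy1 : y ∈ Icc (0:ℝ) 1 := ⟨ha.trans hy.1, hy.2.trans haL⟩
    refine ⟨⟨x, hx1⟩, ⟨y, hy1⟩, hx, hy, ?_⟩
    have h1 := hg ⟨x, hx1⟩ ⟨y, hy1⟩
    simp only at h1
    have h2 : √|x - y| ≤ √L := by
      apply Real.sqrt_le_sqrt
      rw [abs_le]; constructor <;> linarith [hx.1, hx.2, hy.1, hy.2]
    have h3 : |tak x - tak y| ≤ |g ⟨x, hx1⟩ - g ⟨y, hy1⟩| +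
        |(g ⟨x, hx1⟩ - tak x) - (g ⟨y, hy1⟩ - tak y)| := by
      have e : tak x - tak y = (g ⟨x, hx1⟩ - g ⟨y, hy1⟩) -
        ((g ⟨x, hx1⟩ - tak x) - (g ⟨y, hy1⟩ - tak y)) := by ring
      rw [e]
      exact abs_sub _ _
    have h4 : ε * √|x - y| ≤ 1 / 36 * √L := by
      have := Real.sqrt_nonneg |x - y|
      nlinarith
    linarith

end Pool.Agent.X86.OM
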